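import Mathlib
import Pool.Agent.N873.UT.Parts2

/-!
# The ranks of all the curves of a finite set are bounded simultaneously in a twist family, with a
superexponential tail which does not depend on the set

`E n (a, b) : y² = x (x - n a²) (x - n b²)` is the quadratic twist by `-n` of the curve
`y² = x (x + a²) (x + b²)`, which has a rational subgroup `Z/2 x Z/4`; `a`, `b` are coprime, `a` is odd and
`b ≠ 0` is even. Let `F` be a finite set of such pairs. For all the `n` of an explicit set `N F` of positive lower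
density and all the curves of `F` at once, rank plus dimension of `Ш[2]` is at most `2 R`, where `R` is the
4-rank of the class group of `ℚ(√-n)`; `R` has in `N F` the natural density
`η_R = ∏_{i ≥ 1} (1 - 2^(-i)) / (2^(R²) ((1 - 1/2) ⋯ (1 - 1/2^R))²)`. So the proportion of the `n` such that one of
the curves has rank plus dimension of `Ш[2]` larger than `2 R` is at most `4 / 2^((R+1)²)`, whatever `F`.
Parts by helpers 97, 136, 273, 368, 519, 603, 614, 615, 700, 747, 756, 767, 873, 887, 891, 966.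
-/

set_option autoImplicit false

namespace Pool.Agent.Results.MP_157626_nt.SimultaneousTwists

open Filter NumberField
open Pool.Agent.TH841.SH.D (Sha)
open Pool.Agent.N873.UT (Parts Parts2 parts2 Em EQ Adm NF Pr Triv r4 gs etaR triv_iff r4_iff bound density law tailb
  gs_iff exK)

/-- the curve `y² = x (x - n a²) (x - n b²)` -/
def E (n : ℕ) (c : ℤ × ℤ) : WeierstrassCurve ℚ :=
  ⟨0, -((n : ℚ) * ((c.1 : ℚ) ^ 2 + (c.2 : ℚ) ^ 2)), 0, (n : ℚ) ^ 2 * (c.1 : ℚ) ^ 2 * (c.2 : ℚ) ^ 2, 0⟩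

/-- the pairs -/
def Pair (c : ℤ × ℤ) : Prop := IsCoprime c.1 c.2 ∧ Odd c.1 ∧ Even c.2 ∧ c.2 ≠ 0

/-- `m` is a nonzero square modulo `p` -/
def NzSq (p : ℕ) (m : ℤ) : Prop := (m : ZMod p) ≠ 0 ∧ IsSquare (m : ZMod p)

/-- the numbers -/
def N (F : Finset (ℤ × ℤ)) : Set ℕ := {n | Squarefree n ∧ n % 8 = 3 ∧
  ∀ c ∈ F, ∀ p : ℕ, p.Prime → p ≠ 2 → ((p : ℤ) ∣ c.1 * c.2 → ¬ NzSq p (-n)) ∧
    ((p : ℤ) ∣ c.1 ^ 2 - c.2 ^ 2 → ¬ NzSq p n)}

/-- rank zero and `Ш[2 ^ ∞] = 0` -/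
def Trivial (W : WeierstrassCurve ℚ) : Prop := Finite W.toAffine.Point ∧
  ∀ (k : ℕ) (x : Sha W), (2 ^ k : ℕ) • x = 0 → x = 0

/-- the number of the elements of `S` up to `X` -/
noncomputable def cnt (S : Set ℕ) (X : ℕ) : ℝ := (S ∩ Set.Icc 1 X).ncard

/-- the number of the squares of the ideal classes whose order divides four: `2 ^ r`, where `r` is the
4-rank of the class group -/
noncomputable def twoFour (K : Type) [Field K] [NumberField K] : ℕ :=
  Nat.card {y : ClassGroup (𝓞 K) // ∃ x : ClassGroup (𝓞 K), x ^ 4 = 1 ∧ x ^ 2 = y}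

/-- the 4-rank of the class group of `ℚ(√-n)` is `R` -/
def FourRank (n R : ℕ) : Prop := ∀ (K : Type) [Field K] [NumberField K], Module.finrank ℚ K = 2 →
  (∃ s : K, s ^ 2 = -(n : K)) → twoFour K = 2 ^ R

/-- the limit law `η_R = ∏_{i ≥ 1} (1 - 2^(-i)) / (2^(R²) ((1 - 1/2) ⋯ (1 - 1/2^R))²)` -/
noncomputable def law4 (R : ℕ) : ℝ := (∏' i : ℕ, (1 - (1 / 2 : ℝ) ^ (i + 1))) /
  (2 ^ R ^ 2 * (∏ i ∈ Finset.range R, (1 - (1 / 2 : ℝ) ^ (i + 1))) ^ 2)

lemma E_eq (n : ℕ) (c : ℤ × ℤ) : E n c = EQ n c.1 c.2 := by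
  apply WeierstrassCurve.ext <;> simp [E, Em]

lemma pair_iff (c : ℤ × ℤ) : Pair c ↔ Pr c := by
  unfold Pair Pr
  rw [Int.odd_iff, Int.even_iff]

lemma nz_iff (p : ℕ) (hp : p.Prime) (m : ℤ) : NzSq p m ↔ jacobiSym m p = 1 := by
  have : Fact p.Prime := ⟨hp⟩
  unfold NzSq
  rw [← jacobiSym.legendreSym.to_jacobiSym]
  constructor
  · rintro ⟨h1, h2⟩
    exact (legendreSym.eq_one_iff p h1).2 h2
  · intro h
    have h1 : (m : ZMod p) ≠ 0 := by
      intro h0
      rw [(legendreSym.eq_zero_iff p m).2 h0] at h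
      exact absurd h (by norm_num)
    exact ⟨h1, (legendreSym.eq_one_iff p h1).1 h⟩

lemma N_eq {F : Finset (ℤ × ℤ)} (hF : ∀ c ∈ F, Pair c) : N F = NF F := by
  ext n
  constructor
  · rintro ⟨h1, h2, h3⟩
    refine ⟨h1, h2, fun c hc => ?_⟩
    obtain ⟨k1, k2, k3, k4⟩ := (pair_iff c).1 (hF c hc)
    exact ⟨h1, h2, k1, k2, k3, k4,
      fun p hp hp2 hd h => (h3 c hc p hp hp2).1 hd ((nz_iff p hp _).2 h),
      fun p hp hp2 hd h => (h3 c hc p hp hp2).2 hd ((nz_iff p hp _).2 h)⟩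
  · rintro ⟨h1, h2, h3⟩
    refine ⟨h1, h2, fun c hc p hp hp2 => ⟨fun hd h => ?_, fun hd h => ?_⟩⟩
    · exact (h3 c hc).ab p hp hp2 hd ((nz_iff p hp _).1 h)
    · exact (h3 c hc).dd p hp hp2 hd ((nz_iff p hp _).1 h)

lemma triv_eq (n : ℕ) (c : ℤ × ℤ) : Trivial (E n c) ↔ Triv n c.1 c.2 := by
  rw [E_eq]
  exact Iff.rfl

open scoped Classical in
lemma cnt_eq (S : Set ℕ) (X : ℕ) : cnt S X = (((Finset.Icc 1 X).filter fun n => n ∈ S).card : ℝ) := by
  unfold cnt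
  rw [← Set.ncard_coe_finset]
  congr 2
  ext n
  rw [Finset.mem_coe, Finset.mem_filter, Finset.mem_Icc, Set.mem_inter_iff, Set.mem_Icc, and_comm]

open scoped Classical in
lemma cnt_and {F : Finset (ℤ × ℤ)} (hF : ∀ c ∈ F, Pair c) (T : Set ℕ) (X : ℕ) :
    cnt {n ∈ N F | n ∈ T} X = (((Finset.Icc 1 X).filter fun n => n ∈ NF F ∧ n ∈ T).card : ℝ) := by
  unfold cnt
  rw [← Set.ncard_coe_finset]
  congr 2
  ext n
  rw [Finset.mem_coe, Finset.mem_filter, Finset.mem_Icc, Set.mem_inter_iff, Set.mem_Icc, and_comm,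
    ← N_eq hF]
  exact Iff.rfl

/-- all the curves are trivial -/
def TS (F : Finset (ℤ × ℤ)) : Set ℕ := {n | ∀ c ∈ F, Trivial (E n c)}

open scoped Classical in
/-- **The theorem.** -/
theorem result (F : Finset (ℤ × ℤ)) (hF : ∀ c ∈ F, Pair c) :
    (∃ δ : ℝ, 0 < δ ∧ ∀ᶠ X : ℕ in atTop, δ * X ≤ cnt (N F) X) ∧
    (∀ n ∈ N F, ∀ (K : Type) [Field K] [NumberField K], Module.finrank ℚ K = 2 →
      (∃ s : K, s ^ 2 = -(n : K)) →
      (∀ c ∈ F, Finite {x : Sha (E n c) // 2 • x = 0} ∧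
        2 ^ Module.finrank ℤ (E n c).toAffine.Point * Nat.card {x : Sha (E n c) // 2 • x = 0} ≤
          twoFour K ^ 2) ∧
      (twoFour K = 1 → ∀ c ∈ F, Trivial (E n c)) ∧
      (twoFour K ≠ 1 → ∀ c ∈ F, ¬ Trivial (E n c))) ∧
    (∀ R : ℕ, Tendsto (fun X : ℕ => cnt {n ∈ N F | FourRank n R} X / cnt (N F) X) atTop
      (nhds (law4 R))) ∧
    (∀ R : ℕ, ∀ ε : ℝ, 0 < ε → ∀ᶠ X : ℕ in atTop,
      cnt {n ∈ N F | ∃ c ∈ F, 4 ^ R < 2 ^ Module.finrank ℤ (E n c).toAffine.Point *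
        Nat.card {x : Sha (E n c) // 2 • x = 0}} X ≤
      (4 / 2 ^ (R + 1) ^ 2 + ε) * cnt (N F) X) ∧
    (F.Nonempty → Tendsto (fun X : ℕ => cnt {n ∈ N F | ∀ c ∈ F, Trivial (E n c)} X / cnt (N F) X) atTop
      (nhds (∏' i : ℕ, (1 - (1 / 2 : ℝ) ^ (i + 1))))) ∧
    (F.Nonempty → Tendsto (fun X : ℕ => cnt {n ∈ N F | ∀ c ∈ F, ¬ Trivial (E n c)} X / cnt (N F) X) atTop
      (nhds (1 - ∏' i : ℕ, (1 - (1 / 2 : ℝ) ^ (i + 1))))) := by
  have P2 : Parts2 := parts2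
  have P : Parts := P2.p
  have hF' : ∀ c ∈ F, Pr c := fun c hc => (pair_iff c).1 (hF c hc)
  have hadm : ∀ n ∈ N F, ∀ c ∈ F, Adm n c.1 c.2 := by
    intro n hn c hc
    rw [N_eq hF] at hn
    exact hn.2.2 c hc
  have htriv : ∀ n ∈ N F, ∀ c ∈ F, (Trivial (E n c) ↔ Pool.Agent.N969.P15.Qc n) := by
    intro n hn c hc
    rw [triv_eq]
    exact triv_iff P (hadm n hn c hc)
  obtain ⟨δ, hδ, X₁, hlow⟩ := P.low F hF'
  have hlow' : ∀ X : ℕ, X₁ ≤ X → δ * X ≤ cnt (N F) X := by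
    intro X hX
    rw [cnt_eq, N_eq hF]
    exact hlow X hX
  have hgs : ∀ n ∈ N F, ∀ R : ℕ, (FourRank n R ↔ gs n = 2 ^ (R + 1)) := by
    intro n hn R
    obtain ⟨hsq, h8, -⟩ := hn
    have h4 : n % 4 = 3 := by omega
    constructor
    · intro h
      obtain ⟨K, i1, i2, h2, hs⟩ := exK n hsq.ne_zero
      have e1 := gs_iff P2 hsq h4 K h2 hs
      have e2 : r4 K = 2 ^ R := h K h2 hs
      rw [e1, e2, pow_succ, mul_comm]
    · intro h K _ _ h2 hs
      have e1 := gs_iff P2 hsq h4 K h2 hs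
      rw [h, pow_succ, mul_comm] at e1
      exact (Nat.eq_of_mul_eq_mul_left (by norm_num) e1).symm
  refine ⟨⟨δ, hδ, eventually_atTop.2 ⟨X₁, hlow'⟩⟩, ?_, ?_, ?_, ?_, ?_⟩
  · intro n hn K _ _ h2 hs
    have hn' := hn
    obtain ⟨hsq, h8, -⟩ := hn'
    have h4 : n % 4 = 3 := by omega
    have hr : twoFour K = 1 ↔ Pool.Agent.N969.P15.Qc n := by
      rw [← r4_iff hsq h4 K h2 hs]
      unfold twoFour
      rw [Nat.card_eq_one_iff_unique]
      constructor
      · rintro ⟨⟨h3⟩, -⟩ c hc4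
        have := h3 ⟨c ^ 2, c, hc4, rfl⟩ ⟨1, 1, one_pow 4, one_pow 2⟩
        exact congrArg Subtype.val this
      · intro h
        refine ⟨⟨?_⟩, ⟨⟨1, 1, one_pow 4, one_pow 2⟩⟩⟩
        rintro ⟨y, x, hx, hy⟩ ⟨y', x', hx', hy'⟩
        apply Subtype.ext
        show y = y'
        rw [← hy, ← hy', h x hx, h x' hx']
    refine ⟨fun c hc => ?_, fun h c hc => ?_, fun h c hc hT => ?_⟩
    · obtain ⟨h5, h6⟩ := bound P (hadm n hn c hc) K h2 hs
      rw [E_eq]
      simp only [two_nsmul]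
      exact ⟨h5, h6⟩
    · exact (htriv n hn c hc).2 (hr.1 h)
    · exact h (hr.2 ((htriv n hn c hc).1 hT))
  · intro R
    have h := law P2 F hF' R
    refine Tendsto.congr (fun X => ?_) h
    have h1 := cnt_and hF {n | FourRank n R} X
    have e : (((Finset.Icc 1 X).filter fun n => n ∈ NF F ∧ gs n = 2 ^ (R + 1)).card : ℝ) =
        cnt {n ∈ N F | FourRank n R} X := by
      refine Eq.trans ?_ h1.symm
      congr 2
      refine Finset.filter_congr fun n _ => ?_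
      refine and_congr_right fun hn => ?_
      rw [← N_eq hF] at hn
      exact (hgs n hn R).symm
    rw [e, cnt_eq (N F), N_eq hF]
  · intro R ε hε
    have h := tailb P2 F hF' R {n | ∃ c ∈ F, 4 ^ R < 2 ^ Module.finrank ℤ (E n c).toAffine.Point *
        Nat.card {x : Sha (E n c) // 2 • x = 0}} (by
      rintro n hn r hr hgn ⟨c, hc, hlt⟩
      rw [← N_eq hF] at hn
      have hsq := hn.1
      have h4 : n % 4 = 3 := by
        have := hn.2.1
        omega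
      obtain ⟨K, i1, i2, h2, hs⟩ := exK n hsq.ne_zero
      obtain ⟨h5, h6⟩ := bound P (hadm n hn c hc) K h2 hs
      have e1 := gs_iff P2 hsq h4 K h2 hs
      rw [hgn, pow_succ, mul_comm] at e1
      have e2 : r4 K = 2 ^ r := (Nat.eq_of_mul_eq_mul_left (by norm_num) e1).symm
      rw [e2, ← pow_mul, mul_comm r, pow_mul] at h6
      rw [E_eq] at hlt
      simp only [two_nsmul] at hlt
      have h7 : (2 ^ 2) ^ r ≤ 4 ^ R := Nat.pow_le_pow_right (by norm_num) hr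
      exact absurd (hlt.trans_le (h6.trans h7)) (lt_irrefl _)) ε hε
    filter_upwards [h] with X hX
    have h1 := cnt_and hF {n | ∃ c ∈ F, 4 ^ R < 2 ^ Module.finrank ℤ (E n c).toAffine.Point *
        Nat.card {x : Sha (E n c) // 2 • x = 0}} X
    have hB : cnt (N F) X = (((Finset.Icc 1 X).filter fun n => n ∈ NF F).card : ℝ) := by
      rw [cnt_eq, N_eq hF]
    rw [hB, div_eq_mul_one_div (4 : ℝ), ← one_div_pow]
    exact (le_of_eq h1).trans hX
  · rintro ⟨c₀, hc₀⟩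
    have h := density P F hF' (TS F) (fun n hn => by
      rw [← N_eq hF] at hn
      constructor
      · intro h
        exact (htriv n hn c₀ hc₀).1 (h c₀ hc₀)
      · intro h c hc
        exact (htriv n hn c hc).2 h)
    refine Tendsto.congr (fun X => ?_) h
    rw [← cnt_and hF, cnt_eq (N F), N_eq hF]
    rfl
  · rintro ⟨c₀, hc₀⟩
    have h := density P F hF' (TS F) (fun n hn => by
      rw [← N_eq hF] at hn
      constructor
      · intro h
        exact (htriv n hn c₀ hc₀).1 (h c₀ hc₀)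
      · intro h c hc
        exact (htriv n hn c hc).2 h)
    have h1 := h.const_sub 1
    refine Tendsto.congr' ?_ h1
    filter_upwards [eventually_ge_atTop (max X₁ 1)] with X hX
    have hX1 : X₁ ≤ X := (le_max_left _ _).trans hX
    have hX2 : 1 ≤ X := (le_max_right _ _).trans hX
    have hXR : (0 : ℝ) < X := by exact_mod_cast hX2
    have hB : (0 : ℝ) < cnt (N F) X := lt_of_lt_of_le (by positivity) (hlow' X hX1)
    have hBe : cnt (N F) X = (((Finset.Icc 1 X).filter fun n => n ∈ NF F).card : ℝ) := by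
      rw [cnt_eq, N_eq hF]
    rw [← cnt_and hF, ← hBe, eq_div_iff hB.ne', sub_mul, one_mul, div_mul_cancel₀ _ hB.ne']
    have e : cnt (N F) X = cnt {n ∈ N F | n ∈ TS F} X +
        cnt {n ∈ N F | ∀ c ∈ F, ¬ Trivial (E n c)} X := by
      unfold cnt
      rw [← Nat.cast_add, ← Set.ncard_union_eq]
      · congr 2
        ext n
        constructor
        · rintro ⟨g1, g2⟩
          by_cases hQ : Pool.Agent.N969.P15.Qc n
          · exact Or.inl ⟨⟨g1, fun c hc => (htriv n g1 c hc).2 hQ⟩, g2⟩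
          · exact Or.inr ⟨⟨g1, fun c hc h => hQ ((htriv n g1 c hc).1 h)⟩, g2⟩
        · rintro (⟨⟨g1, -⟩, g2⟩ | ⟨⟨g1, -⟩, g2⟩)
          · exact ⟨g1, g2⟩
          · exact ⟨g1, g2⟩
      · rw [Set.disjoint_left]
        rintro n ⟨⟨-, g1⟩, -⟩ ⟨⟨-, g2⟩, -⟩
        exact g2 c₀ hc₀ (g1 c₀ hc₀)
    rw [e]
    ring

end Pool.Agent.Results.MP_157626_nt.SimultaneousTwists
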