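import Pool.Agent.N873.F15.Va
import Pool.Agent.N873.F15.Lr
import Pool.Agent.N873.F15.Ex
import Pool.Agent.N873.F15.Tg
import Pool.Agent.N873.F15.Mi
import Pool.Agent.N873.F15.To
import Pool.Agent.N873.F15.Cl
import Pool.Agent.N873.F15.St
import Pool.Agent.N873.F15.Om

/-!
# The 2-part of the strong conjecture of Birch and Swinnerton-Dyer for `X_0(15)` over a positive proportion
# of all the imaginary quadratic fields, with `Ш[2]` of order `#Cl(K)[2]²`

`E` is the modular curve `X_0(15) : y² + x y + y = x³ + x² - 10 x - 10`, which has no complex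
multiplication, and `K` runs over ALL the imaginary quadratic fields in which `2` is not ramified, `3`
splits and `5` is inert: `disc K = -n`, `n ≡ 23, 47` modulo `60` squarefree; let `t` be the number of the
prime factors of `n`. Let `z = L(E/K, 1) √|disc K| #E(K)_tors² / (Ω ∏ c_v)`, which is zero or the order of
`Ш(E/K)` according to the conjecture. With no hypothesis on the rank or on `Ш` we prove, for all these `K`:
* the equation of `E` is minimal at all the finite places of `K`, `L(E/K, s)` is entire, `∏ c_v = 16` and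
  `#E(K)_tors` is eight times an odd number;
* `2 ^ rank E(K) * #Ш(E/K)[2] = (#Cl(K)[2])² = 4 ^ (t - 1)`;
* `z = u * 4 ^ (t - 1) * y²` with a rational number `u`, which is a unit at two, and an integer `y`,
  which is odd if and only if the class group `Cl(K)` has no element of order four;
* if `Cl(K)` has no element of order four, then `E(K)` is finite, `L(E/K, 1) ≠ 0`,
  `Ш(E/K)[2^∞] = Ш(E/K)[2]` is a vector space over `𝔽₂` of dimension `2 (t - 1)`, and its order is the
  2-part of `z`: the 2-part of the conjecture. If `Cl(K)` has an element of order four, then this is false.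
* Hence the proportion of the `K` of the class for which this is so, ordered by the discriminant, is
  exactly `η = ∏_{i ≥ 1} (1 - 2^{-i}) = 0.2888…`, it is `5 η / 48 = 0.0300…` among all the imaginary
  quadratic fields, and it is the same for the `K` with `#Ш(E/K)[2^∞] ≥ 4 ^ B`, for every `B`. For every
  `k` there are infinitely many `K` with `Ш(E/K)[2^∞]` of order `4 ^ k`.

Proof. The rank and the order of `Ш(E/K)[2]` are computed by a complete 2-descent over `K`
(`Pool/Agent/N873/F15`): all the points of order two are rational, the local images are found at all the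
places, and the Selmer group is given by the divisors of `15 n`; it has order `4 ^ t`. The exponent of
`Ш(E/K)[2^∞]` is bounded by the comparison with the groups of `E` and `E_{-n}` over `ℚ`, which have no
element of order two. The central value `L(E/K, 1) = L(E, 1) L(E_{-n}, 1)` is known up to units at two by
the work on the twists of `X_0(15)` over `ℚ` in the library of many helpers (`Pool/Agent/N875/X15`,
`Pool/Agent/N969/P15`, `Pool/Agent/N871/P15`, see `TwoPartTwistsX15Neg` of `MP_9c97e9_nt`), and the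
density is that of `Pool/Agent/N916/GB`.
-/

set_option autoImplicit false
set_option linter.style.haveILetI false

open NumberField IsDedekindDomain WeierstrassCurve MeasureTheory Filter Topology Module

namespace Pool.Agent.Results.MP_9ab903_nt.TwoPartX15Imaginary

open scoped Classical

open Pool.Agent.TH841.NF.D (Sha)

/-- The curve given by the equation of `W` over the ring `R`. -/
abbrev base (W : WeierstrassCurve ℤ) (R : Type) [CommRing R] : WeierstrassCurve R :=
  W.map (Int.castRingHom R)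

/-- The number of the affine points `(x, y)` over the ring `R`. -/
noncomputable def pts (W : WeierstrassCurve ℤ) (R : Type) [CommRing R] : ℕ :=
  Nat.card {P : R × R // (base W R).toAffine.Equation P.1 P.2}

section

variable {K : Type} [Field K] [NumberField K]

/-- `a_v = N v + 1 - #W(k_v)`, the points over the residue field `k_v` counted with the point at
infinity. -/
noncomputable def a (W : WeierstrassCurve ℤ) (v : HeightOneSpectrum (𝓞 K)) : ℤ :=
  (Ideal.absNorm v.asIdeal : ℤ) - pts W (𝓞 K ⧸ v.asIdeal)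

/-- The Euler factor of `L(W/K, s)` at `v` : `(1 - a_v N v^(-s) + N v^(1 - 2 s))⁻¹` if the
discriminant is a unit at `v`, and `(1 - a_v N v^(-s))⁻¹` otherwise. -/
noncomputable def factor (W : WeierstrassCurve ℤ) (s : ℂ) (v : HeightOneSpectrum (𝓞 K)) : ℂ :=
  (1 - (a W v : ℂ) * (Ideal.absNorm v.asIdeal : ℂ) ^ (-s) +
    if ((W.Δ : ℤ) : 𝓞 K) ∈ v.asIdeal then 0 else (Ideal.absNorm v.asIdeal : ℂ) ^ (1 - 2 * s))⁻¹

/-- The equation is minimal at the finite place `v` of `K`: no change of variables over `K` that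
keeps the coefficients integral at `v` decreases the valuation of the discriminant. -/
def MinimalAt (W : WeierstrassCurve ℤ) (v : HeightOneSpectrum (𝓞 K)) : Prop :=
  ∀ C : VariableChange K, v.valuation K (C • base W K).a₁ ≤ 1 →
    v.valuation K (C • base W K).a₂ ≤ 1 → v.valuation K (C • base W K).a₃ ≤ 1 →
    v.valuation K (C • base W K).a₄ ≤ 1 → v.valuation K (C • base W K).a₆ ≤ 1 →
    v.valuation K (C • base W K).Δ ≤ v.valuation K (base W K).Δ

/-- `E⁰(K_v)`, the group of the points of `W` over the completion `K_v` with nonsingular reduction: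
the points `(x, y)` where `x` is not integral, or one of the partial derivatives of
`y² + a₁ x y + a₃ y - x³ - a₂ x² - a₄ x - a₆` is a unit at `(x, y)`, and the point at infinity. -/
noncomputable def nonsing (W : WeierstrassCurve ℤ) (v : HeightOneSpectrum (𝓞 K)) :
    AddSubgroup (base W (v.adicCompletion K)).toAffine.Point :=
  AddSubgroup.closure {P | ∀ x y h, P = Affine.Point.some x y h →
    1 < Valued.v x ∨ Valued.v (W.a₁ * y - (3 * x ^ 2 + 2 * W.a₂ * x + W.a₄)) = 1 ∨
      Valued.v (2 * y + W.a₁ * x + W.a₃) = 1}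

/-- The Tamagawa number `c_v = [E(K_v) : E⁰(K_v)]` of a minimal equation. -/
noncomputable def c (W : WeierstrassCurve ℤ) (v : HeightOneSpectrum (𝓞 K)) : ℕ :=
  (nonsing W v).index

end

section

variable (K : Type) [Field K] [NumberField K]

/-- The product of the Tamagawa numbers. -/
noncomputable def Tam (W : WeierstrassCurve ℤ) : ℕ := ∏ᶠ v : HeightOneSpectrum (𝓞 K), c W v

/-- The order of the torsion subgroup of `W(K)`. -/
noncomputable def torsOrder (W : WeierstrassCurve ℤ) : ℕ :=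
  Nat.card (AddCommGroup.torsion (base W K).toAffine.Point)

/-- The 2-primary part of the Tate-Shafarevich group over `K`. -/
noncomputable abbrev Sha2 (W : WeierstrassCurve ℤ) : AddSubgroup (Sha (base W K)) :=
  AddCommGroup.primaryComponent (Sha (base W K)) 2

/-- `L` is the L-function of the minimal equation `W` over `K`: it is entire and it is given by the
Euler product for `Re s > 3/2`. -/
def IsL (W : WeierstrassCurve ℤ) (L : ℂ → ℂ) : Prop :=
  Differentiable ℂ L ∧ ∀ s : ℂ, 3 / 2 < s.re → HasProd (factor (K := K) W s) (L s)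

end

/-- `Λ` is the lattice of periods of the differential `dx / (2y + a₁x + a₃)` of the complex curve `W`. -/
def IsPeriodLattice (W : WeierstrassCurve ℤ) (Λ : PeriodPair) : Prop :=
  Λ.g₂ = (W.c₄ : ℂ) / 12 ∧ Λ.g₃ = (W.c₆ : ℂ) / 216

/-- Twice the area of a fundamental parallelogram of the lattice. -/
noncomputable def period (Λ : PeriodPair) : ℝ := 2 * |((starRingEnd ℂ) Λ.ω₁ * Λ.ω₂).im|

/-- The order of the Tate-Shafarevich group predicted by the formula in rank zero for the curve `W` over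
an imaginary quadratic field `K`, for the value `l` of the L-function at `s = 1`:
`l √|disc K| #W(K)_tors² / (Ω ∏ c_v)`. -/
noncomputable def anOrder (K : Type) [Field K] [NumberField K] (W : WeierstrassCurve ℤ) (l : ℂ)
    (Λ : PeriodPair) : ℂ :=
  l * (Real.sqrt |(discr K : ℝ)| : ℝ) * (torsOrder K W : ℂ) ^ 2 /
    ((period Λ : ℂ) * (Tam K W : ℂ))

/-- The 2-part of the strong conjecture of Birch and Swinnerton-Dyer for the curve `W` over an imaginary
quadratic field `K`, in the case that the rank is zero and `Ш[2^∞]` is a vector space of dimension `m`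
over the field with two elements: the equation `W` is minimal at all the finite places, `W(K)` is finite,
`Ш(W/K)[2^∞]` is killed by two and has order `2 ^ m`, `L(W/K, s)` is entire, `L(W/K, 1) ≠ 0`, and the
predicted order of `Ш` is a rational number with 2-adic valuation `m`. -/
def TwoPart (K : Type) [Field K] [NumberField K] (W : WeierstrassCurve ℤ) (m : ℕ) : Prop :=
  (∀ v : HeightOneSpectrum (𝓞 K), MinimalAt W v) ∧ Finite (base W K).toAffine.Point ∧
  (∀ x : Sha2 K W, 2 • x = 0) ∧ Nat.card (Sha2 K W) = 2 ^ m ∧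
  {v : HeightOneSpectrum (𝓞 K) | c W v ≠ 1}.Finite ∧ 0 < Tam K W ∧ 0 < torsOrder K W ∧
  ∃ (L : ℂ → ℂ) (z : ℚ), IsL K W L ∧ L 1 ≠ 0 ∧ (∃ Λ : PeriodPair, IsPeriodLattice W Λ) ∧
    (∀ Λ : PeriodPair, IsPeriodLattice W Λ → 0 < period Λ ∧ anOrder K W (L 1) Λ = z) ∧
    z ≠ 0 ∧ padicValRat 2 z = m

/-- The modular curve `X_0(15)`. -/
def X15 : WeierstrassCurve ℤ := ⟨1, 1, 1, -10, -10⟩

/-- `K` is the imaginary quadratic field of discriminant `-n`. -/
def IsImag (n : ℕ) (K : Type) [Field K] [NumberField K] : Prop :=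
  finrank ℚ K = 2 ∧ discr K = -(n : ℤ)

/-- `-n` is the discriminant of an imaginary quadratic field. -/
def IsDisc (n : ℕ) : Prop := ∃ (K : Type) (_ : Field K) (_ : NumberField K), IsImag n K

/-- The class of the discriminants `-n`: `-n ≡ 1 mod 4` is squarefree (`2` is not ramified), `-n ≡ 1 mod 3`
(`3` splits), `-n ≡ 2, 3 mod 5` (`5` is inert). -/
def Adm (n : ℕ) : Prop :=
  Squarefree n ∧ n % 4 = 3 ∧ n % 3 = 2 ∧ (n % 5 = 2 ∨ n % 5 = 3)

/-- `2 (t - 1)`, for the number `t` of the prime factors of `n` -/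
def dim (n : ℕ) : ℕ := 2 * (n.primeFactors.card - 1)

/-- the class group of `K` has no element of order four -/
def NoOrderFour (K : Type) [Field K] [NumberField K] : Prop :=
  ∀ c : ClassGroup (𝓞 K), c ^ 4 = 1 → c ^ 2 = 1

/-- The statement for all the imaginary quadratic fields of the class. -/
def Criterion (n : ℕ) (K : Type) [Field K] [NumberField K] : Prop :=
  (∀ v : HeightOneSpectrum (𝓞 K), MinimalAt X15 v) ∧
  {v : HeightOneSpectrum (𝓞 K) | c X15 v ≠ 1}.Finite ∧
  Tam K X15 = 16 ∧ (∃ k : ℕ, Odd k ∧ torsOrder K X15 = 8 * k) ∧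
  AddGroup.FG (base X15 K).toAffine.Point ∧
  Nat.card {c : ClassGroup (𝓞 K) // c ^ 2 = 1} ^ 2 = 2 ^ dim n ∧
  2 ^ finrank ℤ (base X15 K).toAffine.Point *
    Nat.card {x : Sha (base X15 K) // 2 • x = 0} =
      Nat.card {c : ClassGroup (𝓞 K) // c ^ 2 = 1} ^ 2 ∧
  (∃ (L : ℂ → ℂ) (u : ℚ) (y : ℤ), IsL K X15 L ∧ u ≠ 0 ∧ padicValRat 2 u = 0 ∧
    (∃ Λ : PeriodPair, IsPeriodLattice X15 Λ) ∧
    (∀ Λ : PeriodPair, IsPeriodLattice X15 Λ → 0 < period Λ ∧
      anOrder K X15 (L 1) Λ = ((u * 2 ^ dim n * (y : ℚ) ^ 2 : ℚ) : ℂ)) ∧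
    (Odd y ↔ NoOrderFour K)) ∧
  (NoOrderFour K ↔ TwoPart K X15 (dim n))

/-- The 2-part of the conjecture for `X_0(15)` over the imaginary quadratic field of discriminant `-n`. -/
def Proved (n : ℕ) : Prop :=
  ∀ (K : Type) [Field K] [NumberField K], IsImag n K → TwoPart K X15 (dim n)

/-- the number of the `n ≤ X` with `Q n` -/
noncomputable def count (Q : ℕ → Prop) (X : ℕ) : ℕ := Nat.card {n : ℕ // 1 ≤ n ∧ n ≤ X ∧ Q n}

/-- `η = ∏_{i ≥ 1} (1 - 2^{-i})` -/
noncomputable def eta : ℝ := ∏' i : ℕ, (1 - (1 / 2 : ℝ) ^ (i + 1))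

section proof

open Pool.Agent.N873.F15 (Fe EK W15)
open Pool.Agent.N969.P15 (Cls0 Qc)

lemma adm_iff (n : ℕ) : Adm n ↔ Cls0 n := by
  unfold Adm Cls0
  constructor
  · rintro ⟨h1, h2, h3, h4⟩
    exact ⟨h1, by omega⟩
  · rintro ⟨h1, h2⟩
    exact ⟨h1, by omega, by omega, by omega⟩

section
variable {K : Type} [Field K] [NumberField K]

/-- the coordinates -/
lemma coords {D : ℤ} {d : K} (hd : d ^ 2 = ((D : ℤ) : K)) (h2 : finrank ℚ K = 2)
    (hD : ∀ q : ℚ, q ^ 2 ≠ (D : ℚ)) (x : K) :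
    ∃ a b : ℚ, x = (a : K) + (b : K) * d := by
  have hli : LinearIndependent ℚ ![(1 : K), d] := by
    rw [LinearIndependent.pair_iff]
    intro s t h
    rw [Algebra.smul_def, Algebra.smul_def, mul_one, eq_ratCast, eq_ratCast] at h
    have ht : t = 0 := by
      by_contra ht
      have h1 : d = ((-s / t : ℚ) : K) := by
        have : (t : K) ≠ 0 := by exact_mod_cast ht
        rw [Rat.cast_div, Rat.cast_neg, eq_div_iff this]
        linear_combination h
      rw [h1] at hd
      exact hD _ (by exact_mod_cast hd)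
    rw [ht, Rat.cast_zero, zero_mul, add_zero] at h
    exact ⟨by exact_mod_cast h, ht⟩
  have hspan := hli.span_eq_top_of_card_eq_finrank' (by rw [h2]; rfl)
  have hx : x ∈ Submodule.span ℚ (Set.range ![(1 : K), d]) := by rw [hspan]; trivial
  rw [Matrix.range_cons, Matrix.range_cons, Matrix.range_empty, Set.union_empty,
    Set.singleton_union, Submodule.mem_span_pair] at hx
  obtain ⟨a, b, hab⟩ := hx
  refine ⟨a, b, ?_⟩
  rw [← hab, Algebra.smul_def, Algebra.smul_def, mul_one, eq_ratCast, eq_ratCast]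

/-- the structure used in the library -/
lemma exists_fe {n : ℕ} (hA : Adm n) (hI : IsImag n K) : (∃ s : K, s ^ 2 = -(n : K)) ∧
    ∃ d : K, Fe (-(n : ℤ)) K d := by
  obtain ⟨hs, h4, h3, h5⟩ := hA
  obtain ⟨s, hs2⟩ := Pool.Agent.N873.F15.Dn.sqrt_of_disc h4 K hI.1 hI.2
  have hd : s ^ 2 = ((-(n : ℤ) : ℤ) : K) := by rw [hs2]; push_cast; ring
  refine ⟨⟨s, hs2⟩, s, ⟨?_, by omega, by omega, hd, ?_⟩, by omega, by omega⟩
  · intro x hx
    rw [dvd_neg] at hx
    exact Int.squarefree_natCast.2 hs x hx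
  · refine coords hd hI.1 fun q hq => ?_
    have h6 : (0 : ℚ) ≤ q ^ 2 := sq_nonneg q
    have h7 : ((-(n : ℤ) : ℤ) : ℚ) < 0 := by
      have : (-(n : ℤ)) < 0 := by omega
      exact_mod_cast this
    rw [hq] at h6
    exact absurd h6 (not_le.2 h7)

lemma rank_fin (A : Type) [AddCommGroup A] [Finite A] : finrank ℤ A = 0 := by
  rw [Module.finrank_eq_zero_iff_isTorsion]
  intro x
  have h : 0 < Nat.card A := Nat.card_pos
  refine ⟨⟨(Nat.card A : ℤ), ?_⟩, ?_⟩
  · rw [mem_nonZeroDivisors_iff_ne_zero]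
    exact_mod_cast h.ne'
  · show (Nat.card A : ℤ) • x = 0
    rw [natCast_zsmul, card_nsmul_eq_zero']

end

lemma IsL.unique {K : Type} [Field K] [NumberField K] {W : WeierstrassCurve ℤ} {f g : ℂ → ℂ}
    (hf : IsL K W f) (hg : IsL K W g) : f = g := by
  have hfa : AnalyticOnNhd ℂ f Set.univ := fun z _ => hf.1.analyticAt z
  have hga : AnalyticOnNhd ℂ g Set.univ := fun z _ => hg.1.analyticAt z
  have heq : f =ᶠ[nhds (2 : ℂ)] g := by
    have hopen : IsOpen {s : ℂ | (3 : ℝ) / 2 < s.re} := isOpen_lt continuous_const Complex.continuous_re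
    filter_upwards [hopen.mem_nhds (show (3 : ℝ) / 2 < (2 : ℂ).re by norm_num)] with s hs
    exact (hf.2 s hs).unique (hg.2 s hs)
  exact hfa.eq_of_eventuallyEq hga heq

lemma val_pow (u : ℚ) (hu : u ≠ 0) (h : padicValRat 2 u = 0) (m : ℕ) {y : ℤ} (hy : y ≠ 0) :
    padicValRat 2 (u * 2 ^ m * (y : ℚ) ^ 2) = m + 2 * padicValInt 2 y := by
  have : Fact (Nat.Prime 2) := ⟨Nat.prime_two⟩
  have hyq : (y : ℚ) ≠ 0 := by exact_mod_cast hy
  have h2 : (2 : ℚ) ^ m ≠ 0 := pow_ne_zero m two_ne_zero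
  rw [padicValRat.mul (mul_ne_zero hu h2) (pow_ne_zero 2 hyq), padicValRat.mul hu h2, h,
    padicValRat.pow, padicValRat.pow, padicValRat.of_int]
  have : padicValRat 2 (2 : ℚ) = 1 := by
    have := padicValRat.self (p := 2) (by norm_num)
    exact_mod_cast this
  rw [this]
  push_cast
  ring

/-- the criterion over `ℚ`, and the class group -/
lemma noOrder_iff {n : ℕ} (hA : Adm n) {K : Type} [Field K] [NumberField K] (hI : IsImag n K) :
    NoOrderFour K ↔ Qc n := by
  rw [Pool.Agent.N875.X15.qc_P15 hA.1.ne_zero]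
  exact Pool.Agent.N875.X15.qc_iff_class hA.1 hA.2.1 K hI.1 (exists_fe hA hI).1

/-- the unit -/
lemma unit_val {z k : ℤ} (hz : Odd z) (hk : Odd k) : (z * k ^ 2 / 9 : ℚ) ≠ 0 ∧
    padicValRat 2 (z * k ^ 2 / 9 : ℚ) = 0 := by
  have : Fact (Nat.Prime 2) := ⟨Nat.prime_two⟩
  have ho : ∀ m : ℤ, Odd m → (m : ℚ) ≠ 0 ∧ padicValRat 2 (m : ℚ) = 0 := by
    intro m hm
    have h0 : m ≠ 0 := by
      rintro rfl
      exact absurd hm (by decide)
    refine ⟨by exact_mod_cast h0, ?_⟩
    rw [padicValRat.of_int]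
    have : padicValInt 2 m = 0 := by
      refine padicValInt.eq_zero_of_not_dvd ?_
      intro hd
      have := Int.odd_iff.1 hm
      omega
    rw [this]
    rfl
  obtain ⟨h1, h2⟩ := ho _ (hz.mul (hk.pow (n := 2)))
  obtain ⟨h3, h4⟩ := ho 9 (by decide)
  have e : (z * k ^ 2 / 9 : ℚ) = ((z * k ^ 2 : ℤ) : ℚ) / ((9 : ℤ) : ℚ) := by push_cast; ring
  rw [e]
  refine ⟨div_ne_zero h1 h3, ?_⟩
  rw [padicValRat.div h1 h3, h2, h4]
  rfl

/-- the criterion -/
theorem criterion {n : ℕ} (hA : Adm n) (K : Type) [Field K] [NumberField K] (hI : IsImag n K) :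
    Criterion n K := by
  have hC := (adm_iff n).1 hA
  obtain ⟨hs, d, hFe⟩ := exists_fe hA hI
  have hQ := noOrder_iff hA hI
  have hpos : 0 < n.primeFactors.card := by
    rw [Finset.card_pos, Nat.nonempty_primeFactors]
    have := hA.2.1
    omega
  obtain ⟨t, ht⟩ : ∃ t, n.primeFactors.card = t + 1 := ⟨n.primeFactors.card - 1, by omega⟩
  have hdim : dim n = 2 * t := by
    unfold dim
    omega
  have hcl : Nat.card {c : ClassGroup (𝓞 K) // c ^ 2 = 1} = 2 ^ t := by
    rw [Pool.Agent.N873.F15.cl_two hA.1 hA.2.1 K hI.1 hs, ht, Nat.add_sub_cancel]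
  have hcl2 : Nat.card {c : ClassGroup (𝓞 K) // c ^ 2 = 1} ^ 2 = 2 ^ dim n := by
    rw [hcl, hdim, ← pow_mul, mul_comm]
  obtain ⟨hcf, htam⟩ := hFe.tam
  obtain ⟨k, hk, htor⟩ := hFe.toFd.tors
  have hmin : ∀ v : HeightOneSpectrum (𝓞 K), MinimalAt X15 v := fun v =>
    Pool.Agent.N873.F15.minimal K v
  have htam' : Tam K X15 = 16 := htam
  have htor' : torsOrder K X15 = 8 * k := htor
  have hrank : 2 ^ finrank ℤ (base X15 K).toAffine.Point *
      Nat.card {x : Sha (base X15 K) // 2 • x = 0} = 2 ^ dim n := by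
    have h3 := hFe.sha_rank
    have h5 : Nat.card {x : Sha (base X15 K) // 2 • x = 0} =
        Nat.card {x : Sha (base X15 K) // x + x = 0} :=
      Nat.card_congr (Equiv.subtypeEquivRight fun x => by rw [two_nsmul])
    rw [h5]
    have e : (-(n : ℤ)).natAbs = n := by simp
    rw [e, ht, pow_succ, mul_comm (4 ^ t)] at h3
    have h6 := Nat.eq_of_mul_eq_mul_left (by norm_num) h3
    rw [hdim, pow_mul]
    exact h6
  obtain ⟨Op, Om, L0, hOp, hOm, g2, g3, hLt, f1, fD, z, y, hf1, hfD, hz, hy, hval⟩ :=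
    Pool.Agent.N873.F15.Va.value hC
  have c4 : (((X15).c₄ : ℤ) : ℂ) / 12 = 481 / 12 := by
    have : (X15).c₄ = 481 := by decide
    rw [this]; norm_num
  have c6 : (((X15).c₆ : ℤ) : ℂ) / 216 = 4879 / 216 := by
    have : (X15).c₆ = 4879 := by decide
    rw [this]; norm_num
  have hper : ∀ Λ : PeriodPair, IsPeriodLattice X15 Λ → period Λ = 2 * (Op * Om) := by
    rintro Λ ⟨e1, e2⟩
    exact Pool.Agent.N873.F15.Va.area hOp hOm hLt (by rw [e1, c4, g2]) (by rw [e2, c6, g3])
  have hIsL : IsL K X15 (fun s => f1 s * fD s) := by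
    refine ⟨hf1.1.mul hfD.1, fun s hs => ?_⟩
    exact Pool.Agent.N873.F15.La.lprod hFe hA.2.1 hf1 hfD s hs
  obtain ⟨u', hu', hu0', huv'⟩ : ∃ u' : ℚ, u' = z * (k : ℤ) ^ 2 / 9 ∧ u' ≠ 0 ∧
      padicValRat 2 u' = 0 := by
    have h5 := unit_val (k := (k : ℤ)) hz (by exact_mod_cast hk)
    exact ⟨_, rfl, h5.1, h5.2⟩
  have hsq : Real.sqrt |(discr K : ℝ)| = √(n : ℝ) := by
    rw [hI.2]
    push_cast
    rw [abs_neg, abs_of_nonneg (Nat.cast_nonneg n)]
  have han : ∀ Λ : PeriodPair, IsPeriodLattice X15 Λ → 0 < period Λ ∧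
      anOrder K X15 (f1 1 * fD 1) Λ = ((u' * 2 ^ dim n * (y : ℚ) ^ 2 : ℚ) : ℂ) := by
    intro Λ hΛ
    have e1 := hper Λ hΛ
    refine ⟨by rw [e1]; positivity, ?_⟩
    unfold anOrder
    rw [e1, hsq, htor', htam', hval, hu', hdim, ht]
    have o1 : (Op : ℂ) ≠ 0 := by exact_mod_cast hOp.ne'
    have o2 : (Om : ℂ) ≠ 0 := by exact_mod_cast hOm.ne'
    push_cast
    rw [pow_mul, pow_succ]
    norm_num
    field_simp
    ring
  have hyd : Odd y ↔ NoOrderFour K := hy.trans hQ.symm
  have hyne : y ≠ 0 → f1 1 * fD 1 ≠ 0 := by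
    intro hy0 h0
    rw [h0, zero_mul] at hval
    have hz0 : (z : ℂ) ≠ 0 := by
      have : z ≠ 0 := by
        rintro rfl
        exact absurd hz (by decide)
      exact_mod_cast this
    have o1 : (Op : ℂ) ≠ 0 := by exact_mod_cast hOp.ne'
    have o2 : (Om : ℂ) ≠ 0 := by exact_mod_cast hOm.ne'
    have hyc : (y : ℂ) ≠ 0 := by exact_mod_cast hy0
    exact (mul_ne_zero (div_ne_zero (mul_ne_zero (mul_ne_zero hz0 (pow_ne_zero _ (by norm_num)))
      (pow_ne_zero 2 hyc)) (by norm_num)) (mul_ne_zero o1 o2)) hval.symm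
  have hex : ∃ Λ : PeriodPair, IsPeriodLattice X15 Λ := ⟨L0, by rw [g2, c4], by rw [g3, c6]⟩
  refine ⟨hmin, hcf, htam', ⟨k, hk, htor'⟩, Pool.Agent.N873.F15.fg_EK K, hcl2,
    hrank.trans hcl2.symm, ⟨_, u', y, hIsL, hu0', huv', hex, han, hyd⟩, ?_, ?_⟩
  · intro hdet
    have hyo := hyd.2 hdet
    have hy0 : y ≠ 0 := by
      rintro rfl
      exact absurd hyo (by decide)
    have hFin : Pool.Agent.N875.X15.Fin2 (Pool.Agent.N875.X15.EQm (-(n : ℤ))) := by
      rw [← Pool.Agent.N875.X15.fin2_S hFe.neg.ne, Pool.Agent.N875.X15.fin2_iff hC.1 hC.2]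
      exact hQ.1 hdet
    obtain ⟨hfin', hexp'⟩ := hFe.toFd.fin_exp hFin
    have hfin : Finite (base X15 K).toAffine.Point := hfin'
    have hcard : Nat.card {x : Sha (base X15 K) // 2 • x = 0} = 2 ^ dim n := by
      have h3 := hrank
      rw [rank_fin, pow_zero, one_mul] at h3
      exact h3
    have hexp : ∀ (x : Sha (base X15 K)) (m : ℕ), 2 ^ m • x = 0 → x + x = 0 := hexp'
    have hmem : ∀ x : Sha (base X15 K), x ∈ Sha2 K X15 ↔ 2 • x = 0 := by
      intro x
      constructor
      · rintro ⟨m, hm⟩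
        rw [two_nsmul]
        exact hexp x m hm
      · intro hx
        exact ⟨1, by rw [pow_one]; exact hx⟩
    have hS2 : Nat.card (Sha2 K X15) = 2 ^ dim n := by
      rw [← hcard]
      exact Nat.card_congr (Equiv.subtypeEquivRight hmem)
    have hyv : padicValInt 2 y = 0 := by
      refine padicValInt.eq_zero_of_not_dvd ?_
      intro hdv
      have h5 := Int.odd_iff.1 hyo
      omega
    refine ⟨hmin, hfin, fun x => Subtype.ext ((hmem x.1).1 x.2), hS2, hcf, ?_, ?_,
      fun s => f1 s * fD s, u' * 2 ^ dim n * (y : ℚ) ^ 2, hIsL, hyne hy0, hex, han, ?_, ?_⟩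
    · rw [htam']
      norm_num
    · rw [htor']
      exact Nat.mul_pos (by norm_num) hk.pos
    · exact mul_ne_zero (mul_ne_zero hu0' (pow_ne_zero _ two_ne_zero))
        (pow_ne_zero 2 (by exact_mod_cast hy0))
    · rw [val_pow u' hu0' huv' _ hy0, hyv]
      norm_num
  · rintro ⟨-, -, -, -, -, -, -, L', w, hL', -, -, hw, hw0, hwv⟩
    rw [← hyd]
    obtain ⟨Λ, hΛ⟩ := hex
    have e1 := (hw Λ hΛ).2
    rw [IsL.unique hL' hIsL, (han Λ hΛ).2] at e1
    have e2 : u' * 2 ^ dim n * (y : ℚ) ^ 2 = w := by exact_mod_cast e1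
    have hy0 : y ≠ 0 := by
      rintro rfl
      apply hw0
      rw [← e2]
      simp
    have e3 := val_pow u' hu0' huv' (dim n) hy0
    rw [e2, hwv] at e3
    have e4 : padicValInt 2 y = 0 := by
      have : (2 : ℤ) * (padicValInt 2 y : ℤ) = 0 := by linarith
      have h6 : (padicValInt 2 y : ℤ) = 0 := by linarith
      exact_mod_cast h6
    rw [← Int.not_even_iff_odd]
    intro he
    have h7 : ¬ (2 : ℤ) ∣ y := by
      intro hdv
      have : Fact (Nat.Prime 2) := ⟨Nat.prime_two⟩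
      have h8 := (padicValInt_dvd_iff (p := 2) 1 y).1 (by
        rw [Nat.cast_ofNat, pow_one]; exact hdv)
      rcases h8 with h8 | h8
      · exact hy0 h8
      · rw [e4] at h8
        omega
    exact h7 he.two_dvd

lemma proved_iff {n : ℕ} (hA : Adm n) : Proved n ↔ Qc n := by
  obtain ⟨K, i1, i2, h2, hd⟩ := Pool.Agent.N873.F15.Dn.exists_field hA.1 hA.2.1
  constructor
  · intro hP
    exact (noOrder_iff hA (K := K) ⟨h2, hd⟩).1
      ((criterion hA K ⟨h2, hd⟩).2.2.2.2.2.2.2.2.2 (hP K ⟨h2, hd⟩))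
  · intro hQ K _ _ hI
    exact (criterion hA K hI).2.2.2.2.2.2.2.2.1 ((noOrder_iff hA hI).2 hQ)

open Pool.Agent.N873.F15.Dn (cnt Cl dens_cl dens_good dens_disc dens_many cnt_congr)

lemma good_iff (B n : ℕ) : (Adm n ∧ 2 * B ≤ dim n ∧ Proved n) ↔
    ((Cl n ∧ Qc n) ∧ (B + 1 ≤ n.primeFactors.card ∨ B = 0 ∧ n.primeFactors.card = 0)) := by
  have h0 : Cl n ↔ Adm n := (adm_iff n).symm
  rw [h0]
  have h1 : 2 * B ≤ dim n ↔ (B + 1 ≤ n.primeFactors.card ∨ B = 0 ∧ n.primeFactors.card = 0) := by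
    unfold dim
    omega
  constructor
  · rintro ⟨h2, h3, h4⟩
    exact ⟨⟨h2, (proved_iff h2).1 h4⟩, h1.1 h3⟩
  · rintro ⟨⟨h2, h3⟩, h4⟩
    exact ⟨h2, h1.2 h4, (proved_iff h2).2 h3⟩

lemma count_good (B X : ℕ) : count (fun n => Adm n ∧ 2 * B ≤ dim n ∧ Proved n) X =
    cnt (fun n => (Cl n ∧ Qc n) ∧ B + 1 ≤ n.primeFactors.card) X := by
  show cnt _ X = cnt _ X
  refine cnt_congr (fun n hn => ?_) X
  rw [good_iff]
  constructor
  · rintro ⟨h1, h2 | ⟨rfl, h2⟩⟩
    · exact ⟨h1, h2⟩
    · exfalso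
      rw [Finset.card_eq_zero, Nat.primeFactors_eq_empty] at h2
      have h3 := h1.1.2
      omega
  · rintro ⟨h1, h2⟩
    exact ⟨h1, Or.inl h2⟩

lemma dens_B (B : ℕ) : Tendsto (fun X : ℕ =>
    (count (fun n => Adm n ∧ 2 * B ≤ dim n ∧ Proved n) X : ℝ) / X) atTop
      (𝓝 (5 * eta / (16 * Real.pi ^ 2))) := by
  refine (dens_many dens_good (B + 1)).congr fun X => ?_
  rw [count_good]

lemma count_adm (X : ℕ) : count Adm X = cnt Cl X := by
  show cnt _ X = cnt _ X
  exact cnt_congr (fun n _ => adm_iff n) X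

lemma count_disc (X : ℕ) : count IsDisc X = cnt Pool.Agent.N873.F15.Dn.IsDisc X := rfl

lemma ratio {a b : ℕ → ℕ} {x y : ℝ} (hy : y ≠ 0)
    (ha : Tendsto (fun X : ℕ => (a X : ℝ) / X) atTop (𝓝 x))
    (hb : Tendsto (fun X : ℕ => (b X : ℝ) / X) atTop (𝓝 y)) :
    Tendsto (fun X : ℕ => (a X : ℝ) / (b X : ℝ)) atTop (𝓝 (x / y)) := by
  refine (ha.div hb hy).congr' ?_
  filter_upwards [eventually_gt_atTop 0] with X hX
  have hX' : (X : ℝ) ≠ 0 := by exact_mod_cast hX.ne'
  simp only [Pi.div_apply]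
  rw [div_div_div_cancel_right₀ hX']

end proof

/-- **Main theorem.** The statement `Criterion n K` holds for all the imaginary quadratic fields `K` in
which `2` is not ramified, `3` splits and `5` is inert. The proportion of the `K` such that the 2-part of
the conjecture `TwoPart` holds for `X_0(15)` over `K`, with `Ш[2^∞]` of dimension `2 (t - 1)` over the
field with two elements, is exactly `η = 0.288…` in the class, it is exactly `5 η / 48 = 0.0300…` among all
the imaginary quadratic fields, and both are the same for the `K` with `2 (t - 1) ≥ 2 B`, for every `B`.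
For every `k` there are infinitely many of these `K` with `Ш[2^∞]` of order `4 ^ k`. -/
theorem result :
    (∀ n : ℕ, Adm n → ∀ (K : Type) [Field K] [NumberField K], IsImag n K → Criterion n K) ∧
    (0.2887 < eta ∧ eta < 0.2889) ∧
    (∀ B : ℕ,
      Tendsto (fun X : ℕ => (count (fun n => Adm n ∧ 2 * B ≤ dim n ∧ Proved n) X : ℝ) /
        (count Adm X : ℝ)) atTop (𝓝 eta) ∧
      Tendsto (fun X : ℕ => (count (fun n => Adm n ∧ 2 * B ≤ dim n ∧ Proved n) X : ℝ) /
        (count IsDisc X : ℝ)) atTop (𝓝 (5 * eta / 48)) ∧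
      Tendsto (fun X : ℕ => (count (fun n => Adm n ∧ 2 * B ≤ dim n ∧ Proved n) X : ℝ) / X) atTop
        (𝓝 (5 * eta / (16 * Real.pi ^ 2)))) ∧
    ∀ k : ℕ, {n : ℕ | Adm n ∧ dim n = 2 * k ∧ Proved n}.Infinite := by
  have hpi := Real.pi_ne_zero
  refine ⟨fun n hn K _ _ hI => criterion hn K hI, Pool.Agent.N916.GB.eta_bounds, fun B => ⟨?_, ?_,
    dens_B B⟩, fun k => ?_⟩
  · have h1 : Tendsto (fun X : ℕ => (count Adm X : ℝ) / X) atTop (𝓝 (5 / (16 * Real.pi ^ 2))) :=
      Pool.Agent.N873.F15.Dn.dens_cl.congr fun X => by rw [count_adm]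
    have h2 := ratio (by positivity) (dens_B B) h1
    have e : 5 * eta / (16 * Real.pi ^ 2) / (5 / (16 * Real.pi ^ 2)) = eta := by
      field_simp
    rwa [e] at h2
  · have h2 := ratio (by positivity) (dens_B B) Pool.Agent.N873.F15.Dn.dens_disc
    have e : 5 * eta / (16 * Real.pi ^ 2) / (3 / Real.pi ^ 2) = 5 * eta / 48 := by
      field_simp
      ring
    rwa [e] at h2
  · refine (Pool.Agent.N873.F15.infinite_star k).mono ?_
    rintro n ⟨h1, h2, h3⟩
    have hA := (adm_iff n).2 h1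
    refine ⟨hA, ?_, (proved_iff hA).2 h3⟩
    unfold dim
    omega

end Pool.Agent.Results.MP_9ab903_nt.TwoPartX15Imaginary
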